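import Pool.Agent.Lib.MP_b5021c_nt.K.H05.Dec

/-!
# MP_b5021c_nt, chapter K, row LIM (helper61): the limit lemma
-/

namespace Pool.Agent.MP_b5021c_nt.H61

open Polynomial Filter Topology

/-- Evaluation of `G P = R` for a power series with bounded coefficients in the open disc. -/
theorem eval_bdd {G : PowerSeries ℂ} {P R : ℂ[X]} {K : ℝ} (hG : ∀ j, ‖PowerSeries.coeff j G‖ ≤ K)
    (h : G * (P : PowerSeries ℂ) = (R : PowerSeries ℂ)) {z : ℂ} (hz : ‖z‖ < 1) :
    (∑' j, PowerSeries.coeff j G * z ^ j) * P.eval z = R.eval z := by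
  have h1 : Summable fun n => ‖PowerSeries.coeff n G * z ^ n‖ := by
    refine Summable.of_nonneg_of_le (fun n => norm_nonneg _) (fun n => ?_)
      ((summable_geometric_of_lt_one (norm_nonneg z) hz).mul_left K)
    rw [norm_mul, norm_pow]
    exact mul_le_mul_of_nonneg_right (hG n) (pow_nonneg (norm_nonneg _) _)
  have h2 := H05.sum1_smul hz.le (H05.sum1_poly P)
  have e1 := H05.sv_poly P z
  have e2 := H05.sv_poly R z
  unfold H05.Sv at e1 e2
  rw [← e1, ← e2, tsum_mul_tsum_eq_tsum_sum_antidiagonal_of_summable_norm h1 h2, ← h]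
  refine tsum_congr fun n => ?_
  rw [PowerSeries.coeff_mul, Finset.sum_mul]
  refine Finset.sum_congr rfl fun kl hkl => ?_
  have hkl' : kl.1 + kl.2 = n := by simpa using hkl
  rw [← hkl', pow_add]
  ring

theorem lim (hBla : BlaS) : LimS := by
  intro E Q E' Q' f f' K hQ0 hQ'0 hnz hE hQE hf hf' hlim
  choose G b hGb hGc hGv hb using fun n => hBla (E n) (Q n) K (hnz n) (hE n) (hQE n)
  have hQne : ∀ n, ((Q n : ℂ[X]) : PowerSeries ℂ) ≠ 0 := by
    intro n h
    have h1 : PowerSeries.coeff 0 ((Q n : ℂ[X]) : PowerSeries ℂ) = 1 := by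
      rw [Polynomial.coeff_coe, hQ0 n]
    rw [h] at h1
    simp at h1
  -- `G f = b`
  have hGf : ∀ n, G n * f n = b n := by
    intro n
    refine mul_right_cancel₀ (hQne n) ?_
    rw [mul_assoc, hf n, hGb n]
  -- uniform description of `b`
  have hb' : ∀ n, ‖PowerSeries.coeff 0 (b n)‖ ≤ 1 ∧
      b n * (1 - PowerSeries.C (starRingEnd ℂ (-PowerSeries.coeff 0 (b n))) * PowerSeries.X)
        = PowerSeries.X - PowerSeries.C (-PowerSeries.coeff 0 (b n)) := by
    intro n
    rcases hb n with h | ⟨ζ, hζ, h⟩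
    · rw [h]
      simp [add_comm]
    · have h0 : PowerSeries.coeff 0 (b n) = -ζ := by
        have := congrArg (PowerSeries.coeff 0) h
        simpa [mul_sub, ← mul_assoc] using this
      rw [h0, neg_neg]
      exact ⟨by rwa [norm_neg], h⟩
  -- convergent subsequence of the coefficients of `G`
  have hcpt : IsCompact (Set.univ.pi fun _ : ℕ => Metric.closedBall (0 : ℂ) K) :=
    isCompact_univ_pi fun _ => isCompact_closedBall _ _
  obtain ⟨g, hg, φ, hφ, hgl⟩ := hcpt.tendsto_subseq (x := fun n j => PowerSeries.coeff j (G n))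
    (fun n => by
      rw [Set.mem_univ_pi]
      intro j
      rw [Metric.mem_closedBall, dist_zero_right]
      exact hGc n j)
  rw [tendsto_pi_nhds] at hgl
  have hgb : ∀ j, ‖g j‖ ≤ K := by
    intro j
    have := (Set.mem_univ_pi.1 hg) j
    rwa [Metric.mem_closedBall, dist_zero_right] at this
  set G' : PowerSeries ℂ := PowerSeries.mk g with hG'
  have hG'c : ∀ j, PowerSeries.coeff j G' = g j := fun j => by rw [hG', PowerSeries.coeff_mk]
  set b' : PowerSeries ℂ := G' * f' with hb'def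
  -- coefficientwise convergence of products
  have hmul : ∀ j, Tendsto (fun n => PowerSeries.coeff j (b (φ n))) atTop
      (𝓝 (PowerSeries.coeff j b')) := by
    intro j
    have e : ∀ n, PowerSeries.coeff j (b (φ n)) = ∑ p ∈ Finset.HasAntidiagonal.antidiagonal j,
        PowerSeries.coeff p.1 (G (φ n)) * PowerSeries.coeff p.2 (f (φ n)) := by
      intro n
      rw [← hGf, PowerSeries.coeff_mul]
    simp_rw [e]
    rw [hb'def, PowerSeries.coeff_mul]
    refine tendsto_finsetSum _ fun p _ => ?_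
    rw [hG'c]
    exact (hgl p.1).mul ((hlim p.2).comp hφ.tendsto_atTop)
  have hb0 : Tendsto (fun n => PowerSeries.coeff 0 (b (φ n))) atTop
      (𝓝 (PowerSeries.coeff 0 b')) := hmul 0
  set ζ : ℂ := -PowerSeries.coeff 0 b' with hζ
  have hζ1 : ‖ζ‖ ≤ 1 := by
    rw [hζ, norm_neg]
    exact le_of_tendsto hb0.norm (Eventually.of_forall fun n => (hb' (φ n)).1)
  have hb'eq : b' * (1 - PowerSeries.C (starRingEnd ℂ ζ) * PowerSeries.X)
      = PowerSeries.X - PowerSeries.C ζ := by
    refine PowerSeries.ext fun j => ?_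
    have e1 : ∀ (u : PowerSeries ℂ) (s : ℂ) (j : ℕ), PowerSeries.coeff j
        (u * (1 - PowerSeries.C s * PowerSeries.X)) = PowerSeries.coeff j u -
          s * (if j = 0 then 0 else PowerSeries.coeff (j - 1) u) := by
      intro u s j
      rw [mul_sub, mul_one, map_sub, show u * (PowerSeries.C s * PowerSeries.X) =
        PowerSeries.C s * (u * PowerSeries.X) by ring, PowerSeries.coeff_C_mul]
      rcases j with _ | j
      · simp
      · rw [PowerSeries.coeff_succ_mul_X]
        simp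
    have h1 : Tendsto (fun n => PowerSeries.coeff j (b (φ n) *
        (1 - PowerSeries.C (starRingEnd ℂ (-PowerSeries.coeff 0 (b (φ n)))) * PowerSeries.X))) atTop
        (𝓝 (PowerSeries.coeff j (b' * (1 - PowerSeries.C (starRingEnd ℂ ζ) * PowerSeries.X)))) := by
      simp_rw [e1]
      refine (hmul j).sub (Tendsto.mul ?_ ?_)
      · exact (Complex.continuous_conj.tendsto _).comp hb0.neg
      · split_ifs with hj
        · exact tendsto_const_nhds
        · exact hmul (j - 1)
    have h2 : Tendsto (fun n => PowerSeries.coeff j (b (φ n) *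
        (1 - PowerSeries.C (starRingEnd ℂ (-PowerSeries.coeff 0 (b (φ n)))) * PowerSeries.X))) atTop
        (𝓝 (PowerSeries.coeff j (PowerSeries.X - PowerSeries.C ζ))) := by
      have e2 : ∀ n, PowerSeries.coeff j (b (φ n) *
        (1 - PowerSeries.C (starRingEnd ℂ (-PowerSeries.coeff 0 (b (φ n)))) * PowerSeries.X)) =
          PowerSeries.coeff j (PowerSeries.X : PowerSeries ℂ) -
            (if j = 0 then -PowerSeries.coeff 0 (b (φ n)) else 0) := by
        intro n
        rw [(hb' (φ n)).2, map_sub, PowerSeries.coeff_C]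
      simp_rw [e2]
      rw [map_sub, PowerSeries.coeff_C]
      refine tendsto_const_nhds.sub ?_
      split_ifs with hj
      · exact hb0.neg
      · exact tendsto_const_nhds
    exact tendsto_nhds_unique h1 h2
  -- the identity of polynomials
  have hGE : G' * ((E' * (1 - C (starRingEnd ℂ ζ) * X) : ℂ[X]) : PowerSeries ℂ) =
      (((X - C ζ) * Q' : ℂ[X]) : PowerSeries ℂ) := by
    have e : G' * (E' : PowerSeries ℂ) = b' * (Q' : PowerSeries ℂ) := by
      rw [← hf', hb'def]; ring
    rw [Polynomial.coe_mul, Polynomial.coe_mul, Polynomial.coe_sub, Polynomial.coe_sub,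
      Polynomial.coe_mul, Polynomial.coe_one, Polynomial.coe_C, Polynomial.coe_C, Polynomial.coe_X,
      ← mul_assoc, e, ← hb'eq]
    ring
  have hdisc : ∀ z : ℂ, ‖z‖ < 1 → ‖z - ζ‖ * ‖Q'.eval z‖ ≤
      K * ‖E'.eval z‖ * ‖1 - starRingEnd ℂ ζ * z‖ := by
    intro z hz
    have h1 := eval_bdd (G := G') (K := K) (fun j => by rw [hG'c]; exact hgb j) hGE hz
    have hGz : ‖∑' j, PowerSeries.coeff j G' * z ^ j‖ ≤ K := by
      have ht : Tendsto (fun n => ∑' j, PowerSeries.coeff j (G (φ n)) * z ^ j) atTop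
          (𝓝 (∑' j, PowerSeries.coeff j G' * z ^ j)) := by
        refine tendsto_tsum_of_dominated_convergence (bound := fun j => K * ‖z‖ ^ j)
          ((summable_geometric_of_lt_one (norm_nonneg z) hz).mul_left K) ?_ ?_
        · intro j
          rw [hG'c]
          exact (hgl j).mul_const _
        · refine Eventually.of_forall fun n j => ?_
          rw [norm_mul, norm_pow]
          exact mul_le_mul_of_nonneg_right (hGc _ j) (pow_nonneg (norm_nonneg _) _)
      exact le_of_tendsto ht.norm (Eventually.of_forall fun n => hGv (φ n) z hz)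
    have h2 := congrArg norm h1
    rw [norm_mul] at h2
    simp only [eval_mul, eval_sub, eval_one, eval_C, eval_X, norm_mul] at h2
    rw [← h2, mul_assoc]
    exact mul_le_mul_of_nonneg_right hGz (by positivity)
  intro z0 hz0
  -- `z = r z0`, `r → 1`
  have hr : Tendsto (fun r : ℝ => (r : ℂ) * z0) (𝓝[<] 1) (𝓝 z0) := by
    have : Tendsto (fun r : ℝ => (r : ℂ) * z0) (𝓝 1) (𝓝 (((1 : ℝ) : ℂ) * z0)) :=
      (Complex.continuous_ofReal.tendsto 1).mul_const z0
    rw [Complex.ofReal_one, one_mul] at this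
    exact this.mono_left nhdsWithin_le_nhds
  have hev : ∀ᶠ r : ℝ in 𝓝[<] 1, ‖(r : ℂ) * z0‖ < 1 := by
    filter_upwards [Ioo_mem_nhdsLT (show (0 : ℝ) < 1 by norm_num)] with r hr
    rw [norm_mul, hz0, mul_one, Complex.norm_real, Real.norm_eq_abs, abs_of_pos hr.1]
    exact hr.2
  by_cases hζn : ‖ζ‖ = 1
  · have key : ∀ z : ℂ, ‖z‖ < 1 → ‖Q'.eval z‖ ≤ K * ‖E'.eval z‖ := by
      intro z hz
      have h1 := hdisc z hz
      have hne : z - ζ ≠ 0 := by
        intro h
        rw [sub_eq_zero] at h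
        rw [h, hζn] at hz
        exact lt_irrefl _ hz
      have h2 : ‖1 - starRingEnd ℂ ζ * z‖ = ‖z - ζ‖ := by
        have e : 1 - starRingEnd ℂ ζ * z = -(starRingEnd ℂ ζ) * (z - ζ) := by
          have : starRingEnd ℂ ζ * ζ = 1 := by
            rw [mul_comm, Complex.mul_conj, Complex.normSq_eq_norm_sq, hζn]
            norm_num
          linear_combination -this
        rw [e, norm_mul, norm_neg, RCLike.norm_conj, hζn, one_mul]
      rw [h2, mul_comm (K * _)] at h1
      exact le_of_mul_le_mul_left h1 (norm_pos_iff.2 hne)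
    have t1 : Tendsto (fun r : ℝ => ‖Q'.eval ((r : ℂ) * z0)‖) (𝓝[<] 1) (𝓝 ‖Q'.eval z0‖) :=
      ((Q'.continuous.tendsto z0).comp hr).norm
    have t2 : Tendsto (fun r : ℝ => K * ‖E'.eval ((r : ℂ) * z0)‖) (𝓝[<] 1)
        (𝓝 (K * ‖E'.eval z0‖)) :=
      (((E'.continuous.tendsto z0).comp hr).norm).const_mul K
    exact le_of_tendsto_of_tendsto t1 t2 (hev.mono fun r hr => key _ hr)
  · have hlt : ‖ζ‖ < 1 := lt_of_le_of_ne hζ1 hζn
    have hne : z0 - ζ ≠ 0 := by
      intro h
      rw [sub_eq_zero] at h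
      rw [← h, hz0] at hlt
      exact lt_irrefl _ hlt
    have t1 : Tendsto (fun r : ℝ => ‖(r : ℂ) * z0 - ζ‖ * ‖Q'.eval ((r : ℂ) * z0)‖) (𝓝[<] 1)
        (𝓝 (‖z0 - ζ‖ * ‖Q'.eval z0‖)) :=
      ((hr.sub_const ζ).norm).mul ((Q'.continuous.tendsto z0).comp hr).norm
    have t2 : Tendsto (fun r : ℝ => K * ‖E'.eval ((r : ℂ) * z0)‖ *
        ‖1 - starRingEnd ℂ ζ * ((r : ℂ) * z0)‖) (𝓝[<] 1)
        (𝓝 (K * ‖E'.eval z0‖ * ‖1 - starRingEnd ℂ ζ * z0‖)) :=
      ((((E'.continuous.tendsto z0).comp hr).norm).const_mul K).mul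
        ((hr.const_mul _).const_sub 1).norm
    have h1 := le_of_tendsto_of_tendsto t1 t2 (hev.mono fun r hr => hdisc _ hr)
    have h2 : ‖1 - starRingEnd ℂ ζ * z0‖ = ‖z0 - ζ‖ := by
      have e : 1 - starRingEnd ℂ ζ * z0 = z0 * starRingEnd ℂ (z0 - ζ) := by
        have : z0 * starRingEnd ℂ z0 = 1 := by
          rw [Complex.mul_conj, Complex.normSq_eq_norm_sq, hz0]
          norm_num
        rw [map_sub, mul_sub, this]
        ring
      rw [e, norm_mul, RCLike.norm_conj, hz0, one_mul]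
    rw [h2, mul_comm (K * _)] at h1
    exact le_of_mul_le_mul_left h1 (norm_pos_iff.2 hne)

end Pool.Agent.MP_b5021c_nt.H61
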