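import Pool.Agent.Lib.MP_b5021c_nt.IfaceK1

/-!
# MP_b5021c_nt, chapter K, row PIS (helper61): Pisot's theorem
-/

namespace Pool.Agent.MP_b5021c_nt.H61

open Polynomial Filter Topology

/-- The shift of complex sequences. -/
def sC : Module.End ℂ (ℕ → ℂ) where
  toFun x := fun n => x (n + 1)
  map_add' _ _ := rfl
  map_smul' _ _ := rfl

theorem sC_pow (i : ℕ) (x : ℕ → ℂ) (n : ℕ) : (sC ^ i) x n = x (n + i) := by
  induction i generalizing n with
  | zero => simp
  | succ k ih =>
      rw [pow_succ', Module.End.mul_apply]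
      change (sC ^ k) x (n + 1) = _
      rw [ih]
      congr 1
      omega

theorem aeval_sC (P : ℂ[X]) (x : ℕ → ℂ) (n : ℕ) :
    (aeval sC P) x n = ∑ i ∈ Finset.range (P.natDegree + 1), P.coeff i * x (n + i) := by
  rw [aeval_eq_sum_range, LinearMap.sum_apply, Finset.sum_apply]
  refine Finset.sum_congr rfl fun i _ => ?_
  rw [LinearMap.smul_apply, Pi.smul_apply, sC_pow, smul_eq_mul]

theorem aeval_sC_pow (P : ℂ[X]) (z : ℂ) :
    (aeval sC P) (fun n => z ^ n) = P.eval z • (fun n => z ^ n) := by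
  funext n
  rw [aeval_sC, Pi.smul_apply, smul_eq_mul, eval_eq_sum_range, Finset.sum_mul]
  refine Finset.sum_congr rfl fun i _ => ?_
  rw [pow_add]
  ring

theorem aeval_sC_null (P : ℂ[X]) (x : ℕ → ℂ) (hx : Tendsto x atTop (𝓝 0)) :
    Tendsto ((aeval sC P) x) atTop (𝓝 0) := by
  have h1 : Tendsto (fun n => ∑ i ∈ Finset.range (P.natDegree + 1), P.coeff i * x (n + i)) atTop
      (𝓝 (∑ i ∈ Finset.range (P.natDegree + 1), P.coeff i * 0)) :=
    tendsto_finsetSum _ fun i _ => ((tendsto_add_atTop_iff_nat (f := x) i).2 hx).const_mul _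
  simp only [mul_zero, Finset.sum_const_zero] at h1
  refine h1.congr fun n => ?_
  rw [aeval_sC]

/-- `Ann` with a bound on the degree. -/
theorem ann_range (q : ℤ[X]) (a : ℕ → ℤ) (N : ℕ) (hN : q.natDegree < N) :
    Ann q a ↔ ∀ n, ∑ i ∈ Finset.range N, q.coeff i * a (n + i) = 0 := by
  unfold Ann
  refine forall_congr' fun n => ?_
  rw [sum_over_range' q (fun i => by simp) N hN]

/-- `Ann` over the complex numbers. -/
theorem ann_complex (q : ℤ[X]) (a : ℕ → ℤ) (h : Ann q a) :
    (aeval sC (q.map (Int.castRingHom ℂ))) (fun n => (a n : ℂ)) = 0 := by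
  funext n
  have hd : (q.map (Int.castRingHom ℂ)).natDegree = q.natDegree :=
    natDegree_map_eq_of_injective (RingHom.injective_int _) q
  rw [aeval_sC, hd, Pi.zero_apply]
  have h1 := (ann_range q a (q.natDegree + 1) (Nat.lt_succ_self _)).1 h n
  have h2 := congrArg (Int.cast : ℤ → ℂ) h1
  push_cast at h2
  rw [← h2]
  refine Finset.sum_congr rfl fun i _ => ?_
  rw [coeff_map]
  simp

theorem sq_null {h : ℕ → ℝ} (hs : Summable (fun j => h j ^ 2)) :
    Tendsto (fun n => ((h n : ℝ) : ℂ)) atTop (𝓝 0) := by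
  have h1 := hs.tendsto_atTop_zero
  have h2 : Tendsto (fun j => Real.sqrt (h j ^ 2)) atTop (𝓝 (Real.sqrt 0)) :=
    (Real.continuous_sqrt.tendsto 0).comp h1
  simp only [Real.sqrt_sq_eq_abs, Real.sqrt_zero] at h2
  have h3 := (tendsto_zero_iff_abs_tendsto_zero _).2 h2
  have := (Complex.continuous_ofReal.tendsto 0).comp h3
  simpa [Function.comp_def] using this

/-- Rationalisation: a complex recurrence of an integer sequence gives an integral one of the same degree. -/
theorem rationalise (a : ℕ → ℤ) (π : ℂ[X]) (hπ : π ≠ 0)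
    (h : (aeval sC π) (fun n => (a n : ℂ)) = 0) :
    ∃ q : ℤ[X], q ≠ 0 ∧ q.natDegree ≤ π.natDegree ∧ Ann q a := by
  have hl : π.coeff π.natDegree ≠ 0 := by
    rw [coeff_natDegree]
    exact leadingCoeff_ne_zero.2 hπ
  obtain ⟨lam, hlam⟩ : ∃ lam : Module.Dual ℚ ℂ, lam (π.coeff π.natDegree) ≠ 0 := by
    by_contra hcon
    push Not at hcon
    exact hl ((Module.forall_dual_apply_eq_zero_iff ℚ _).1 hcon)
  -- rational polynomial
  set R : ℚ[X] := ∑ i ∈ Finset.range (π.natDegree + 1), C (lam (π.coeff i)) * X ^ i with hR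
  have hRc : ∀ i, R.coeff i = if i < π.natDegree + 1 then lam (π.coeff i) else 0 := by
    intro i
    rw [hR, finsetSum_coeff]
    simp only [coeff_C_mul, coeff_X_pow, mul_ite, mul_one, mul_zero]
    rw [Finset.sum_ite_eq]
    simp only [Finset.mem_range]
  obtain ⟨b, hbm, hb⟩ := IsLocalization.integerNormalization_spec (nonZeroDivisors ℤ) R
  set q : ℤ[X] := IsLocalization.integerNormalization (nonZeroDivisors ℤ) R with hq
  have hb0 : ((b : ℤ) : ℚ) ≠ 0 := by
    have := nonZeroDivisors.ne_zero hbm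
    exact_mod_cast this
  have hqc : ∀ i, ((q.coeff i : ℤ) : ℚ) = (b : ℤ) * R.coeff i := by
    intro i
    have h1 := congrArg (fun P : ℚ[X] => P.coeff i) hb
    simp only [coeff_map, zsmul_eq_mul] at h1
    simpa using h1
  have hdeg : q.natDegree ≤ π.natDegree := by
    refine natDegree_le_iff_coeff_eq_zero.2 fun i hi => ?_
    have h1 := hqc i
    rw [hRc, if_neg (by omega), mul_zero] at h1
    exact_mod_cast h1
  refine ⟨q, ?_, hdeg, ?_⟩
  · intro h0
    have h1 := hqc π.natDegree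
    rw [hRc, if_pos (Nat.lt_succ_self _), h0, coeff_zero, Int.cast_zero] at h1
    exact mul_ne_zero hb0 hlam h1.symm
  · rw [ann_range q a (π.natDegree + 1) (by omega)]
    intro n
    have h1 := congrFun h n
    rw [aeval_sC, Pi.zero_apply] at h1
    have h2 := congrArg lam h1
    rw [map_sum, map_zero] at h2
    have h3 : ∀ i, lam (π.coeff i * ((a (n + i) : ℤ) : ℂ)) = lam (π.coeff i) * (a (n + i) : ℚ) := by
      intro i
      rw [mul_comm, ← zsmul_eq_mul, map_zsmul, zsmul_eq_mul, mul_comm]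
    simp_rw [h3] at h2
    have h4 : ((∑ i ∈ Finset.range (π.natDegree + 1), q.coeff i * a (n + i) : ℤ) : ℚ) = 0 := by
      push_cast
      have e : ∀ i ∈ Finset.range (π.natDegree + 1), ((q.coeff i : ℤ) : ℚ) * (a (n + i) : ℚ) =
          (b : ℤ) * (lam (π.coeff i) * (a (n + i) : ℚ)) := by
        intro i hi
        rw [hqc, hRc, if_pos (Finset.mem_range.1 hi), mul_assoc]
      rw [Finset.sum_congr rfl e, ← Finset.mul_sum, h2, mul_zero]
    exact_mod_cast h4

theorem pis (hHan : HanS) (hKro : KroS) (hFat : FatS) : PisS := by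
  intro a c t h ht hc ha hs
  have hh := sq_null hs
  have htC : (t : ℂ) ≠ 0 := by
    exact_mod_cast (by linarith : t ≠ 0)
  -- decomposition of `a`
  have hA : (fun n => ((a n : ℤ) : ℂ)) = (c : ℂ) • (fun n => (t : ℂ) ^ n) + fun n => ((h n : ℝ) : ℂ) := by
    funext n
    have h2 : ((a n : ℝ) : ℂ) = ((c * t ^ n + h n : ℝ) : ℂ) := by rw [ha n]
    push_cast at h2
    rw [Pi.add_apply, Pi.smul_apply, smul_eq_mul]
    exact h2
  have hdec : ∀ P : ℂ[X], (aeval sC P) (fun n => ((a n : ℤ) : ℂ)) =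
      (c * P.eval (t : ℂ)) • (fun n => (t : ℂ) ^ n) + (aeval sC P) (fun n => ((h n : ℝ) : ℂ)) := by
    intro P
    rw [hA, map_add, map_smul, aeval_sC_pow, smul_smul]
  -- a polynomial annihilating `a` vanishes at `t`
  have hroot : ∀ P : ℂ[X], (aeval sC P) (fun n => ((a n : ℤ) : ℂ)) = 0 → P.eval (t : ℂ) = 0 := by
    intro P hP
    by_contra hne
    have hα : (c : ℂ) * P.eval (t : ℂ) ≠ 0 := mul_ne_zero (by exact_mod_cast hc) hne
    have h1 := aeval_sC_null P _ hh
    have h2 : ∀ n, ‖(c : ℂ) * P.eval (t : ℂ)‖ ≤ ‖(aeval sC P) (fun n => ((h n : ℝ) : ℂ)) n‖ := by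
      intro n
      have h3 := congrFun ((hdec P).symm.trans hP) n
      rw [Pi.add_apply, Pi.smul_apply, smul_eq_mul, Pi.zero_apply] at h3
      have h4 : (aeval sC P) (fun n => ((h n : ℝ) : ℂ)) n = -((c : ℂ) * P.eval (t : ℂ) * (t : ℂ) ^ n) := by
        linear_combination h3
      rw [h4, norm_neg, norm_mul _ ((t : ℂ) ^ n), norm_pow, Complex.norm_real, Real.norm_eq_abs,
        abs_of_pos (by linarith)]
      exact le_mul_of_one_le_right (norm_nonneg _) (one_le_pow₀ ht.le)
    have h3 := ge_of_tendsto h1.norm (Eventually.of_forall h2)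
    rw [norm_zero] at h3
    exact hα (norm_le_zero_iff.1 h3)
  -- the annihilating polynomials
  obtain ⟨q0, hq0, hq0a⟩ := hKro a (hHan a c t h ht ha hs)
  obtain ⟨pm, hpm, hpma⟩ := hFat a q0 hq0 hq0a
  have hev : ∀ q : ℤ[X], (q.map (Int.castRingHom ℂ)).eval (t : ℂ) = 0 → aeval t q = 0 := by
    intro q hq
    have h1 : ((aeval t q : ℝ) : ℂ) = (q.map (Int.castRingHom ℂ)).eval (t : ℂ) := by
      rw [eval_map, ← algebraMap_int_eq, ← aeval_def, ← Complex.coe_algebraMap, aeval_algebraMap_apply]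
    rw [hq] at h1
    exact_mod_cast h1
  have hint : IsIntegral ℤ t := ⟨pm, hpm, by
    rw [← aeval_def]
    exact hev pm (hroot _ (ann_complex pm a hpma))⟩
  refine ⟨ht, hint, fun γ hγ hγt => ?_⟩
  by_contra hcon
  push Not at hcon
  -- minimal annihilating polynomial
  obtain ⟨p, ⟨hp0, hpa⟩, hmin⟩ := WellFounded.has_min (InvImage.wf (natDegree : ℤ[X] → ℕ) wellFounded_lt)
    {q : ℤ[X] | q ≠ 0 ∧ Ann q a} ⟨q0, hq0, hq0a⟩
  set pC : ℂ[X] := p.map (Int.castRingHom ℂ) with hpC
  have hpt : pC.eval (t : ℂ) = 0 := hroot _ (ann_complex p a hpa)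
  have hdvd : minpoly ℤ t ∣ p := minpoly.isIntegrallyClosed_dvd hint (hev p hpt)
  have hpγ : pC.eval γ = 0 := by
    obtain ⟨r, hr⟩ := hdvd
    have h1 : aeval γ p = 0 := by
      rw [hr, map_mul, hγ, zero_mul]
    rw [hpC, eval_map, ← algebraMap_int_eq, ← aeval_def]
    exact h1
  obtain ⟨π, hπ⟩ := dvd_iff_isRoot.2 hpγ
  have hpC0 : pC ≠ 0 := by
    rw [hpC]
    exact (Polynomial.map_ne_zero_iff (RingHom.injective_int _)).2 hp0
  have hπ0 : π ≠ 0 := by
    intro h0
    rw [h0, mul_zero] at hπ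
    exact hpC0 hπ
  have hπt : π.eval (t : ℂ) = 0 := by
    have h1 := hpt
    rw [hπ, eval_mul, mul_eq_zero] at h1
    rcases h1 with h1 | h1
    · rw [eval_sub, eval_X, eval_C, sub_eq_zero] at h1
      exact absurd h1.symm hγt
    · exact h1
  have hdegπ : π.natDegree < p.natDegree := by
    have h1 : pC.natDegree = p.natDegree :=
      natDegree_map_eq_of_injective (RingHom.injective_int _) p
    rw [← h1, hπ, natDegree_mul (X_sub_C_ne_zero γ) hπ0, natDegree_X_sub_C]
    omega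
  set g : ℕ → ℂ := (aeval sC π) (fun n => ((a n : ℤ) : ℂ)) with hg
  have hg1 : ∀ n, g (n + 1) = γ * g n := by
    intro n
    have h1 := ann_complex p a hpa
    rw [← hpC, hπ, map_mul, Module.End.mul_apply, ← hg] at h1
    have h2 := congrFun h1 n
    rw [map_sub, aeval_X, aeval_C, LinearMap.sub_apply, Module.algebraMap_end_apply, Pi.sub_apply,
      Pi.smul_apply, smul_eq_mul, Pi.zero_apply] at h2
    change g (n + 1) - γ * g n = 0 at h2
    exact sub_eq_zero.1 h2
  have hgn : ∀ n, g n = γ ^ n * g 0 := by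
    intro n
    induction n with
    | zero => simp
    | succ k ih => rw [hg1, ih, pow_succ]; ring
  have hgnull : Tendsto g atTop (𝓝 0) := by
    rw [hg, hdec π, hπt, mul_zero, zero_smul, zero_add]
    exact aeval_sC_null π _ hh
  have hg0 : g 0 = 0 := by
    have h2 : ∀ n, ‖g 0‖ ≤ ‖g n‖ := by
      intro n
      rw [hgn n, norm_mul, norm_pow]
      exact le_mul_of_one_le_left (norm_nonneg _) (one_le_pow₀ hcon)
    have h3 := ge_of_tendsto hgnull.norm (Eventually.of_forall h2)
    rw [norm_zero] at h3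
    exact norm_le_zero_iff.1 h3
  have hgz : g = 0 := by
    funext n
    rw [hgn n, hg0, mul_zero, Pi.zero_apply]
  obtain ⟨q, hq, hqd, hqa⟩ := rationalise a π hπ0 hgz
  exact hmin q ⟨hq, hqa⟩ (lt_of_le_of_lt hqd hdegπ)

end Pool.Agent.MP_b5021c_nt.H61
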